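import Mathlib
import Pool.Agent.H8.NullFin

namespace Pool.Agent.Results.MP_9624c8_gt.NotUnion

open Filter Topology Set MeasureTheory

/-- `C m` is the cyclic group of complex roots of unity of order `m + 2`. -/
def C (m : ℕ) : Type := rootsOfUnity (m + 2) ℂ

noncomputable instance (m : ℕ) : CommGroup (C m) := inferInstanceAs (CommGroup (rootsOfUnity (m + 2) ℂ))

/-- Each factor carries the discrete topology. -/
instance (m : ℕ) : TopologicalSpace (C m) := ⊥

instance (m : ℕ) : DiscreteTopology (C m) := ⟨rfl⟩

/-- `B` is null-finite in the product group. -/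
def NullFinite (B : Set (∀ m, C m)) : Prop :=
  ∃ x : ℕ → ∀ m, C m, Tendsto x atTop (𝓝 1) ∧ ∀ y : ∀ m, C m, {k | y * x k ∈ B}.Finite

/-- The product of the sets of non-identity elements is not a countable union of Borel
null-finite sets (it is not even covered by one). -/
theorem result (B : ℕ → Set (∀ m, C m)) (hB : ∀ k, MeasurableSet[borel (∀ m, C m)] (B k))
    (hN : ∀ k, NullFinite (B k)) : ¬ ({y : ∀ m, C m | ∀ m, y m ≠ 1} ⊆ ⋃ k, B k) := by
  choose x hx hfin using hN
  exact Pool.Agent.H8.NullFin.core (G := fun m => Additive (C m))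
    (fun n => (Complex.card_rootsOfUnity (n + 2)).ge) B hB x hx hfin

end Pool.Agent.Results.MP_9624c8_gt.NotUnion
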